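import Pool.Agent.U186.ASC.Stg

/-!
# Systems with independent degrees: stages over charts of projective schemes

The proof follows `ascent` of `Pool.Agent.W418.LU2.Final` and `stage_core` of
`Pool.Agent.N102.FL.LPts` (helper102).
-/

set_option autoImplicit false
set_option linter.unusedVariables false
set_option linter.unusedSectionVars false

universe u

namespace Pool.Agent.U186.RD

open Pool.Agent.W418.LU2 Pool.Agent.N102.FL Pool.Agent.H176.DT

/-- **Stages over charts for systems with independent degrees.** -/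
theorem ind_stage {E K : Type u} [Field E] [Field K] [Algebra E K] (V : ValuationSubring K)
    (p : ℕ) [hp : Fact p.Prime] (hpV : V.valuation (p : K) < 1)
    (O : Subring K) (hO : ∀ a ∈ O, a ∈ V) (R : Subring E) [IsNoetherianRing R]
    (hfr : ∀ z : E, ∃ a ∈ R, ∃ b ∈ R, b ≠ 0 ∧ z = a * b⁻¹)
    (hLU : LogUnif (V.comap (algebraMap E K)) R)
    {n : ℕ} (Wf : Fin n → Submodule E K) [∀ s, FiniteDimensional E (Wf s)]
    (hgen : IntermediateField.adjoin E (⋃ s, (Wf s : Set K)) = ⊤)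
    {r : ℕ} (ι : Fin r → Type) [∀ j, Fintype (ι j)] (i₀ : ∀ j, ι j)
    (c : ∀ j, ι j → E) (hc : ∀ j i, c j i ≠ 0) (d : ∀ j, ι j → Fin n → ℕ)
    (g : ∀ j i s, Fin (d j i s) → K) (hgW : ∀ j i s t, g j i s t ∈ Wf s)
    (hg0 : ∀ j i s t, g j i s t ≠ 0) (e : ∀ j, ι j → Fin r → ℕ) (f : Fin r → K)
    (he : ∀ j i l, e j i l ≠ 0 → l < j ∧ f l ≠ 0)
    (hf : ∀ j, f j = ∑ i, algebraMap E K (c j i) * ((∏ s, ∏ t, g j i s t) * ∏ l, f l ^ e j i l))
    (deg : Fin r → Fin n → ZMod p) (hdeg : ∀ j, deg j = dg2 deg (d j (i₀ j)) (e j (i₀ j)))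
    (hind : LinearIndependent (ZMod p) fun q : (j : Fin r) × {i : ι j // i ≠ i₀ j} =>
      dg2 deg (d q.1 q.2) (e q.1 q.2) - deg q.1)
    (htr : Algebra.trdeg E K + (Nat.card {j // f j = 0} : Cardinal.{u}) =
      ((∑ s, Module.finrank E (Wf s) : ℕ) : Cardinal.{u}))
    {W : Set K} (hW : W.Finite) {h : K} (hh : h ∈ W) (hh0 : h ≠ 0) (hhV : ∀ g ∈ W, g / h ∈ V)
    (hWm : ∀ g ∈ W, g ≠ 0 → IsMonomial Wf f g)
    (hOR : O ≤ R.map (algebraMap E K)) (hRA : R.map (algebraMap E K) ≤ ch O W h)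
    (hWA : ∀ s, ∀ y ∈ Wf s, ∃ c ∈ ch O W h, IsMonomial Wf f c ∧ c * y ∈ ch O W h)
    (π : K) (hπ : π ∈ O) (hπ0 : π ≠ 0) :
    Mod V (ch O W h) ∧ ∃ (T : Set K) (n' : ℕ) (X : Fin n' → K), St V (ch O W h) T X ∧
      PMon (PP V (ch O W h) T) X π := by
  classical
  set A := ch O W h with hA
  have hAV : A ≤ V.toSubring := by
    rw [hA]
    unfold ch
    rw [Subring.closure_le]
    rintro g (hg | ⟨g', hg', rfl⟩)
    · exact hO g hg
    · exact hhV g' hg'
  have hRA' : ∀ r ∈ R, algebraMap E K r ∈ A := fun r hr => hRA ⟨r, hr, rfl⟩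
  -- bases of the subspaces
  let J : Type := Σ s : Fin n, Fin (Module.finrank E (Wf s))
  let bb : J → K := fun q => ((Module.finBasis E (Wf q.1) q.2 : Wf q.1) : K)
  have hbb : ∀ q : J, bb q ∈ Wf q.1 := fun q => (Module.finBasis E (Wf q.1) q.2).2
  choose bt hbt1 hbt2 hbt3 using fun q : J => hWA q.1 (bb q) (hbb q)
  let Z : Set K := {g | g ∈ W ∧ g ≠ 0} ∪ Set.range bt
  have hZf : Z.Finite := (hW.subset fun g hg => hg.1).union (Set.finite_range bt)
  have hZm : ∀ z ∈ Z, IsMonomial Wf f z := by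
    intro z hz
    rcases hz with hz | ⟨q, rfl⟩
    · exact hWm z hz.1 hz.2
    · exact hbt2 q
  have hrep := fun z (hz : z ∈ Z) => exists_rep (hZm z hz)
  choose! ez Uz hez0 hUz hrep using hrep
  let Uall : Finset K := hZf.toFinset.biUnion Uz
  have hUall : ∀ u ∈ Uall, u ≠ 0 ∧ ∃ s, u ∈ Wf s := by
    intro u hu
    obtain ⟨z, hz, hzu⟩ := Finset.mem_biUnion.1 hu
    exact hUz z (hZf.mem_toFinset.1 hz) u hzu
  let qU := Uall.equivFin
  choose ub hub using fun q : Fin Uall.card => (hUall (qU.symm q) (qU.symm q).2).2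
  obtain ⟨Θ, _, y, hy, hyU, hyf, hyW, hyfr, Hc, 𝒮, hHcf, hHc0, hOk, hPM𝒮, htrΘ⟩ :=
    lci_sys V (p := p) Wf hgen ι i₀ c hc d g hgW hg0 e f he hf deg hdeg hind htr
      (fun q => ((qU.symm q : Uall) : K)) ub hub (fun q => (hUall _ (qU.symm q).2).1)
  have hyU' : ∀ u ∈ Uall, ∃ θ, y θ = u := by
    intro u hu
    obtain ⟨θ, hθ⟩ := hyU (qU ⟨u, hu⟩)
    refine ⟨θ, ?_⟩
    rw [hθ, Equiv.symm_apply_apply]
  have hcov' : ∀ z ∈ Z, Mon E y z := by
    intro z hz
    obtain ⟨m', hm'⟩ := ((hrep z hz).mono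
      (Finset.subset_biUnion_of_mem Uz (hZf.mem_toFinset.2 hz))).mo hy hyU' hyf
    exact ⟨ez z, m', hez0 z hz, hm'⟩
  have hEm : ∀ a : E, algebraMap E K a ∈ mulSub E hy A := const_mulSub hy hfr hRA'
  have hbm : ∀ q : J, bb q ∈ mulSub E hy A := fun q =>
    ⟨bt q, hbt1 q, hcov' _ (Or.inr ⟨q, rfl⟩), hbt3 q⟩
  have hWs : ∀ s, ∀ y' ∈ Wf s, y' ∈ mulSub E hy A := by
    intro s y' hy'
    have h1 := (Module.finBasis E (Wf s)).sum_repr ⟨y', hy'⟩
    have h2 := congrArg (fun z : Wf s => (z : K)) h1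
    simp only at h2
    rw [← h2, AddSubmonoidClass.coe_finset_sum]
    refine sum_mem fun i _ => ?_
    change (Module.finBasis E (Wf s)).repr ⟨y', hy'⟩ i • ((Module.finBasis E (Wf s) i : Wf s) : K) ∈ _
    rw [Algebra.smul_def]
    exact mul_mem (hEm _) (hbm ⟨s, i⟩)
  have hfm : ∀ (M : ℕ) (j : Fin r), j.val = M → f j ∈ mulSub E hy A := by
    intro M
    induction M using Nat.strong_induction_on with
    | _ M ih =>
      intro j hj
      rw [hf j]
      refine sum_mem fun i _ => mul_mem (hEm _) (mul_mem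
        (prod_mem fun s _ => prod_mem fun t _ => hWs s _ (hgW _ _ _ _))
        (prod_mem fun l _ => ?_))
      by_cases h : e j i l = 0
      · rw [h, pow_zero]; exact one_mem _
      · exact pow_mem (ih l.val (by rw [← hj]; exact (he j i l h).1) l rfl) _
  have hym : ∀ θ, y θ ∈ mulSub E hy A := by
    intro θ
    rcases hyW θ with ⟨s, hs⟩ | ⟨l, hl⟩
    · exact hWs s _ hs
    · rw [hl]
      exact hfm l.val l rfl
  have hMod : Mod V A := by
    refine ⟨hAV, fun w' => ?_⟩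
    obtain ⟨P, Q, hQ0, hQ⟩ := hyfr w'
    obtain ⟨β, hβ, hβm, hβP⟩ := ph_mem hEm hym P
    obtain ⟨γ, hγ, hγm, hγQ⟩ := ph_mem hEm hym Q
    have hβ0 : β ≠ 0 := by
      obtain ⟨a, m, ha, rfl⟩ := hβm
      exact mul_ne_zero ((map_ne_zero (algebraMap E K)).2 ha) (mo_ne_zero hy m)
    have hγ0 : γ ≠ 0 := by
      obtain ⟨a, m, ha, rfl⟩ := hγm
      exact mul_ne_zero ((map_ne_zero (algebraMap E K)).2 ha) (mo_ne_zero hy m)
    refine ⟨γ * (β * ph (E := E) y P), A.mul_mem hγ hβP, β * (γ * ph (E := E) y Q),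
      A.mul_mem hβ hγQ, mul_ne_zero hβ0 (mul_ne_zero hγ0 hQ0), ?_⟩
    rw [← hQ]
    field_simp
  refine ⟨hMod, ?_⟩
  have hAeq : A = Subring.closure ((R.map (algebraMap E K) : Set K) ∪
      ((fun g => g / h) '' {g | g ∈ W ∧ g ≠ 0})) := by
    apply le_antisymm
    · rw [hA]
      unfold ch
      rw [Subring.closure_le]
      rintro g (hg | ⟨g', hg', rfl⟩)
      · exact Subring.subset_closure (Or.inl (hOR hg))
      · by_cases h0 : g' = 0
        · rw [h0, zero_div]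
          exact Subring.zero_mem _
        · exact Subring.subset_closure (Or.inr ⟨g', ⟨hg', h0⟩, rfl⟩)
    · rw [Subring.closure_le]
      rintro g (hg | ⟨g', ⟨hg', -⟩, rfl⟩)
      · exact hRA hg
      · rw [hA]
        exact Subring.subset_closure (Or.inr ⟨g', hg', rfl⟩)
  have hhm : Mon E y h := hcov' h (Or.inl ⟨hh, hh0⟩)
  obtain ⟨π', hπ'R, hπ'⟩ := hOR hπ
  have hπ'0 : π' ≠ 0 := by
    rintro rfl
    rw [map_zero] at hπ'
    exact hπ0 hπ'.symm
  obtain ⟨T, n', X, h1, h2⟩ := t_stg2 V (p := p) hpV R hfr (fun r hr => hAV (hRA' r hr)) hLU Θ y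
    hy hyfr Hc 𝒮 hHcf hHc0 hOk hPM𝒮 htrΘ A ((fun g => g / h) '' {g | g ∈ W ∧ g ≠ 0})
    ((hW.subset fun g hg => hg.1).image _) (by
      rintro _ ⟨g', hg', rfl⟩
      change Mon E y (g' / h)
      rw [div_eq_mul_inv]
      exact (hcov' g' (Or.inl hg')).mul hy hhm.inv) hAeq hAV hym {π} (Set.finite_singleton π) (by
      intro g' hg'
      rw [Set.mem_singleton_iff.1 hg', ← hπ']
      exact Mon.const hπ'0)
  exact ⟨T, n', X, h1, h2 π rfl⟩

end Pool.Agent.U186.RD
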