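import Pool.Agent.U186.ASC.Stg

/-!
# Rank drop loci: stages over charts of projective schemes

The proof follows `ascent` of `Pool.Agent.W418.LU2.Final` and `stage_core` of
`Pool.Agent.N102.FL.LPts` (helper102).
-/

set_option autoImplicit false
set_option linter.unusedVariables false
set_option linter.unusedSectionVars false

universe u

namespace Pool.Agent.U186.RD

open MvPolynomial Pool.Agent.W418.LU2 Pool.Agent.N102.FL Pool.Agent.H176.DT

/-- **Stages over charts for rank drop loci.** -/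
theorem drop_stage {E K : Type u} [Field E] [Field K] [Algebra E K] (V : ValuationSubring K)
    (p : ℕ) [hp : Fact p.Prime] (hpV : V.valuation (p : K) < 1)
    (O : Subring K) (hO : ∀ a ∈ O, a ∈ V) (R : Subring E) [IsNoetherianRing R]
    (hfr : ∀ z : E, ∃ a ∈ R, ∃ b ∈ R, b ≠ 0 ∧ z = a * b⁻¹)
    (hLU : LogUnif (V.comap (algebraMap E K)) R)
    {a b N : ℕ} (M : Matrix (Fin a) (Fin b) E) (u : Fin N → Fin a → E)
    (v : Fin N → Fin b → E) (m : Fin N → ℕ) (hm : ∀ e, ¬ p ∣ m e)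
    (hI : minors (rmat M u v (fun e => (X e : MvPolynomial (Fin N) E) ^ m e)) ≠ ⊥)
    (P : Ideal (MvPolynomial (Fin N) E))
    (hPm : P ∈ (minors (rmat M u v
      (fun e => (X e : MvPolynomial (Fin N) E) ^ m e))).minimalPrimes)
    (t : Fin N → K) (hgen : IntermediateField.adjoin E (Set.range t) = ⊤)
    (hP : ∀ G : MvPolynomial (Fin N) E, G ∈ P ↔ aeval t G = (0 : K))
    (w : Fin b → K) (i₀ : Fin b) (hwi : w i₀ = 1)
    (hw : (rmat M u v (fun e => t e ^ m e)).mulVec w = 0)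
    {W : Set K} (hW : W.Finite) {h : K} (hh : h ∈ W) (hh0 : h ≠ 0) (hhV : ∀ g ∈ W, g / h ∈ V)
    (hWm : ∀ g ∈ W, g ≠ 0 → ∃ z ∈ mons v t m w, (z : K) = g)
    (hOR : O ≤ R.map (algebraMap E K)) (hRA : R.map (algebraMap E K) ≤ ch O W h)
    (htA : ∀ e, ∃ c ∈ ch O W h, (∃ z ∈ mons v t m w, (z : K) = c) ∧ c * t e ∈ ch O W h)
    (hwA : ∀ j, ∃ c ∈ ch O W h, (∃ z ∈ mons v t m w, (z : K) = c) ∧ c * w j ∈ ch O W h)
    (π : K) (hπ : π ∈ O) (hπ0 : π ≠ 0) :
    Mod V (ch O W h) ∧ ∃ (T : Set K) (n' : ℕ) (X : Fin n' → K), St V (ch O W h) T X ∧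
      PMon (PP V (ch O W h) T) X π := by
  classical
  have hm0 : ∀ e, 0 < m e := by
    intro e
    refine Nat.pos_of_ne_zero fun h => hm e ?_
    rw [h]
    exact dvd_zero p
  obtain ⟨hft, htr⟩ := comp_data3 M u v m hm0 hI P hPm K t hgen hP w i₀ hwi hw
  obtain ⟨Wf, hfd, r, c, d, g, hV0, hV1, hgen', hc, hgW, hg0, hf, hdeg, hind, htr'⟩ :=
    drop_sys p E K v t m hm hgen w i₀ hwi hft htr
  have hmon := mons_eq v t m w Wf (r := r) hV0 hV1
  set A := ch O W h with hA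
  have hAV : A ≤ V.toSubring := by
    rw [hA]
    unfold ch
    rw [Subring.closure_le]
    rintro g (hg | ⟨g', hg', rfl⟩)
    · exact hO g hg
    · exact hhV g' hg'
  have hRA' : ∀ r ∈ R, algebraMap E K r ∈ A := fun r hr => hRA ⟨r, hr, rfl⟩
  choose bt hbt1 hbt2 hbt3 using htA
  choose bw hbw1 hbw2 hbw3 using hwA
  let Z : Set K := {g | g ∈ W ∧ g ≠ 0} ∪ (Set.range bt ∪ Set.range bw)
  have hZf : Z.Finite := (hW.subset fun g hg => hg.1).union
    ((Set.finite_range bt).union (Set.finite_range bw))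
  have hZm : ∀ z ∈ Z, IsMonomial Wf (fun _ : Fin r => (0 : K)) z := by
    intro z hz
    unfold IsMonomial
    rw [hmon]
    rcases hz with hz | ⟨e, rfl⟩ | ⟨j, rfl⟩
    · exact hWm z hz.1 hz.2
    · exact hbt2 e
    · exact hbw2 j
  have hrep := fun z (hz : z ∈ Z) => exists_rep (hZm z hz)
  choose! ez Uz hez0 hUz hrep using hrep
  let Uall : Finset K := hZf.toFinset.biUnion Uz
  have hUall : ∀ u ∈ Uall, u ≠ 0 ∧ ∃ s, u ∈ Wf s := by
    intro u hu
    obtain ⟨z, hz, hzu⟩ := Finset.mem_biUnion.1 hu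
    exact hUz z (hZf.mem_toFinset.1 hz) u hzu
  let qU := Uall.equivFin
  choose ub hub using fun q : Fin Uall.card => (hUall (qU.symm q) (qU.symm q).2).2
  obtain ⟨Θ, _, y, hy, hyU, hyf, hyW, hyfr, Hc, 𝒮, hHcf, hHc0, hOk, hPM𝒮, htrΘ⟩ :=
    lci_sys V (p := p) Wf hgen' (fun _ => Fin 2)
      (fun _ => 0) c hc d (fun j i s _ => g j i s) hgW hg0 (fun _ _ _ => 0)
      (fun _ => 0) (fun j i l h => absurd rfl h) hf (fun j s => (d j 0 s : ZMod p)) hdeg hind htr'
      (fun q => ((qU.symm q : Uall) : K)) ub hub (fun q => (hUall _ (qU.symm q).2).1)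
  have hyU' : ∀ u ∈ Uall, ∃ θ, y θ = u := by
    intro u hu
    obtain ⟨θ, hθ⟩ := hyU (qU ⟨u, hu⟩)
    refine ⟨θ, ?_⟩
    rw [hθ, Equiv.symm_apply_apply]
  have hcov' : ∀ z ∈ Z, Mon E y z := by
    intro z hz
    obtain ⟨m', hm'⟩ := ((hrep z hz).mono
      (Finset.subset_biUnion_of_mem Uz (hZf.mem_toFinset.2 hz))).mo hy hyU' hyf
    exact ⟨ez z, m', hez0 z hz, hm'⟩
  have hEm : ∀ a : E, algebraMap E K a ∈ mulSub E hy A := const_mulSub hy hfr hRA'
  have htm : ∀ e, t e ∈ mulSub E hy A := fun e =>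
    ⟨bt e, hbt1 e, hcov' _ (Or.inr (Or.inl ⟨e, rfl⟩)), hbt3 e⟩
  have hwm : ∀ j, w j ∈ mulSub E hy A := fun j =>
    ⟨bw j, hbw1 j, hcov' _ (Or.inr (Or.inr ⟨j, rfl⟩)), hbw3 j⟩
  have hQspan : ∀ (S : Set K), (∀ z ∈ S, z ∈ mulSub E hy A) → ∀ y' ∈ Submodule.span E S,
      y' ∈ mulSub E hy A := by
    intro S hS y' hy'
    induction hy' using Submodule.span_induction with
    | mem y hy => exact hS y hy
    | zero => exact zero_mem _
    | add y z _ _ h1 h2 => exact add_mem h1 h2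
    | smul c y _ h1 =>
      rw [Algebra.smul_def]
      exact mul_mem (hEm c) h1
  have hWs : ∀ s, ∀ y' ∈ Wf s, y' ∈ mulSub E hy A := by
    intro s y' hy'
    by_cases h0 : (s : ℕ) = 0
    · have h1 : s = ⟨0, by omega⟩ := Fin.ext h0
      rw [h1, hV0] at hy'
      refine hQspan _ ?_ y' hy'
      rintro _ ⟨q, rfl⟩
      rcases q with j | e
      · exact hwm j
      · change t e ^ m e * form v w e ∈ mulSub E hy A
        refine mul_mem (pow_mem (htm e) _) ?_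
        exact sum_mem fun j _ => mul_mem (hEm _) (hwm j)
    · have h1 : s = ⟨1 + ((⟨s - 1, by omega⟩ : Fin N) : ℕ), by simp only; omega⟩ := Fin.ext (by
        simp only
        omega)
      rw [h1, hV1] at hy'
      refine hQspan _ ?_ y' hy'
      rintro z hz
      rw [Set.mem_singleton_iff.1 hz]
      exact htm _
  have hym : ∀ θ, y θ ∈ mulSub E hy A := by
    intro θ
    rcases hyW θ with ⟨s, hs⟩ | ⟨l, hl⟩
    · exact hWs s _ hs
    · exact absurd hl (hy θ)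
  have hMod : Mod V A := by
    refine ⟨hAV, fun w' => ?_⟩
    obtain ⟨P, Q, hQ0, hQ⟩ := hyfr w'
    obtain ⟨β, hβ, hβm, hβP⟩ := ph_mem hEm hym P
    obtain ⟨γ, hγ, hγm, hγQ⟩ := ph_mem hEm hym Q
    have hβ0 : β ≠ 0 := by
      obtain ⟨a, m, ha, rfl⟩ := hβm
      exact mul_ne_zero ((map_ne_zero (algebraMap E K)).2 ha) (mo_ne_zero hy m)
    have hγ0 : γ ≠ 0 := by
      obtain ⟨a, m, ha, rfl⟩ := hγm
      exact mul_ne_zero ((map_ne_zero (algebraMap E K)).2 ha) (mo_ne_zero hy m)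
    refine ⟨γ * (β * ph (E := E) y P), A.mul_mem hγ hβP, β * (γ * ph (E := E) y Q),
      A.mul_mem hβ hγQ, mul_ne_zero hβ0 (mul_ne_zero hγ0 hQ0), ?_⟩
    rw [← hQ]
    field_simp
  refine ⟨hMod, ?_⟩
  have hAeq : A = Subring.closure ((R.map (algebraMap E K) : Set K) ∪
      ((fun g => g / h) '' {g | g ∈ W ∧ g ≠ 0})) := by
    apply le_antisymm
    · rw [hA]
      unfold ch
      rw [Subring.closure_le]
      rintro g (hg | ⟨g', hg', rfl⟩)
      · exact Subring.subset_closure (Or.inl (hOR hg))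
      · by_cases h0 : g' = 0
        · rw [h0, zero_div]
          exact Subring.zero_mem _
        · exact Subring.subset_closure (Or.inr ⟨g', ⟨hg', h0⟩, rfl⟩)
    · rw [Subring.closure_le]
      rintro g (hg | ⟨g', ⟨hg', -⟩, rfl⟩)
      · exact hRA hg
      · rw [hA]
        exact Subring.subset_closure (Or.inr ⟨g', hg', rfl⟩)
  have hhm : Mon E y h := hcov' h (Or.inl ⟨hh, hh0⟩)
  obtain ⟨π', hπ'R, hπ'⟩ := hOR hπ
  have hπ'0 : π' ≠ 0 := by
    rintro rfl
    rw [map_zero] at hπ'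
    exact hπ0 hπ'.symm
  obtain ⟨T, n', X, h1, h2⟩ := t_stg2 V (p := p) hpV R hfr (fun r hr => hAV (hRA' r hr)) hLU Θ y
    hy hyfr Hc 𝒮 hHcf hHc0 hOk hPM𝒮 htrΘ A ((fun g => g / h) '' {g | g ∈ W ∧ g ≠ 0})
    ((hW.subset fun g hg => hg.1).image _) (by
      rintro _ ⟨g', hg', rfl⟩
      change Mon E y (g' / h)
      rw [div_eq_mul_inv]
      exact (hcov' g' (Or.inl hg')).mul hy hhm.inv) hAeq hAV hym {π} (Set.finite_singleton π) (by
      intro g' hg'
      rw [Set.mem_singleton_iff.1 hg', ← hπ']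
      exact Mon.const hπ'0)
  exact ⟨T, n', X, h1, h2 π rfl⟩

end Pool.Agent.U186.RD
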