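import Pool.Agent.U186.DropFin

/-!
# Rank drop loci: all normalised kernel vectors
-/

set_option autoImplicit false

universe u

open MvPolynomial

namespace Pool.Agent.U186.RD

section comp

variable {E : Type u} [Field E] {a b N : ℕ} (M : Matrix (Fin a) (Fin b) E) (u : Fin N → Fin a → E)
  (v : Fin N → Fin b → E) (m : Fin N → ℕ)

/-- **The transcendence degree and the normalised kernel vector.** -/
theorem comp_data2 (hm : ∀ e, 0 < m e)
    (hI : minors (rmat M u v (fun e => (X e : MvPolynomial (Fin N) E) ^ m e)) ≠ ⊥)
    (P : Ideal (MvPolynomial (Fin N) E))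
    (hPm : P ∈ (minors (rmat M u v
      (fun e => (X e : MvPolynomial (Fin N) E) ^ m e))).minimalPrimes)
    (K : Type u) [Field K] [Algebra E K] (t : Fin N → K)
    (hgen : IntermediateField.adjoin E (Set.range t) = ⊤)
    (hP : ∀ G : MvPolynomial (Fin N) E, G ∈ P ↔ aeval t G = (0 : K)) :
    ∃ (w : Fin b → K) (i₀ : Fin b), w i₀ = 1 ∧ (rmat M u v (fun e => t e ^ m e)).mulVec w = 0 ∧
      (∀ z : Fin b → K, (rmat M u v (fun e => t e ^ m e)).mulVec z = 0 → z i₀ = 0 → z = 0) ∧
      (∀ e, form v w e = 0 → t e ≠ 0) ∧
      Algebra.trdeg E K + 1 = ((Module.finrank E (space v (fun e => t e ^ m e) w) +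
        Nat.card {e : Fin N // form v w e = 0} : ℕ) : Cardinal.{u}) := by
  classical
  set x : Fin N → K := fun e => t e ^ m e with hx
  have hPp : P.IsPrime := hPm.1.1
  -- the contraction
  let Px : Ideal (MvPolynomial (Fin N) E) := P.comap (pw (E := E) m).toRingHom
  have hPxp : Px.IsPrime := Ideal.IsPrime.comap _
  have hmap : (minors (rmat M u v (X : Fin N → MvPolynomial (Fin N) E))).map
      (pw (E := E) m).toRingHom =
      minors (rmat M u v (fun e => (X e : MvPolynomial (Fin N) E) ^ m e)) := by
    rw [map_minors]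
    congr 2
    funext e
    rw [pw, aeval_X]
  have hPxm : Px ∈ (minors (rmat M u v (X : Fin N → MvPolynomial (Fin N) E))).minimalPrimes := by
    refine comap_minimalPrimes (pw (E := E) m).toRingHom (pw_injective m hm)
      (pw_isIntegral m hm) _ P ?_
    rw [hmap]
    exact hPm
  have hPx0 : Px ≠ ⊥ := by
    intro h
    apply hI
    rw [← hmap]
    have h1 : minors (rmat M u v (X : Fin N → MvPolynomial (Fin N) E)) ≤ ⊥ := by
      rw [← h]
      exact hPxm.1.2
    rw [le_bot_iff.1 h1, Ideal.map_bot]
  have haev : ∀ G : MvPolynomial (Fin N) E, aeval t (pw m G) = aeval x G := by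
    intro G
    have h1 : (aeval t : MvPolynomial (Fin N) E →ₐ[E] K).comp (pw m) = aeval x := by
      apply MvPolynomial.algHom_ext
      intro e
      rw [AlgHom.comp_apply, pw, aeval_X, aeval_X, map_pow, aeval_X]
    rw [← h1]
    rfl
  have hPx : ∀ G : MvPolynomial (Fin N) E, G ∈ Px ↔ aeval x G = (0 : K) := by
    intro G
    rw [← haev, ← hP]
    rfl
  -- the field of fractions
  let A := MvPolynomial (Fin N) E ⧸ Px
  let K₀ := FractionRing A
  let x₀ : Fin N → K₀ := fun e => algebraMap A K₀ (Ideal.Quotient.mk Px (X e))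
  let g : A →ₐ[E] K := Ideal.Quotient.liftₐ Px (aeval x) (fun G hG => (hPx G).1 hG)
  have hg : Function.Injective g := by
    rw [injective_iff_map_eq_zero]
    intro y hy
    obtain ⟨G, rfl⟩ := Ideal.Quotient.mk_surjective y
    exact Ideal.Quotient.eq_zero_iff_mem.2 ((hPx G).2 hy)
  let σ : K₀ →ₐ[E] K := IsFractionRing.liftAlgHom (g := g) hg
  have hσA : ∀ y : A, σ (algebraMap A K₀ y) = g y := fun y => IsFractionRing.lift_algebraMap hg y
  have hσx : ∀ e, σ (x₀ e) = x e := by
    intro e
    change σ (algebraMap A K₀ (Ideal.Quotient.mk Px (X e))) = _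
    rw [hσA]
    change aeval x (X e) = x e
    rw [aeval_X]
  have hσ : Function.Injective σ := σ.toRingHom.injective
  -- the kernel vector
  have haev0 : ∀ G : MvPolynomial (Fin N) E, aeval x₀ G = algebraMap A K₀ (Ideal.Quotient.mk Px G) := by
    intro G
    have h1 : (aeval x₀ : MvPolynomial (Fin N) E →ₐ[E] K₀) =
        (IsScalarTower.toAlgHom E A K₀).comp (Ideal.Quotient.mkₐ E Px) := by
      apply MvPolynomial.algHom_ext
      intro e
      rw [aeval_X]
      rfl
    rw [h1]
    rfl
  obtain ⟨w', hw'0, hw'⟩ := exists_kernel (rmat M u v x₀) (by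
    intro f
    have h1 := map_det M u v (aeval x₀ : MvPolynomial (Fin N) E →ₐ[E] K₀) X f
    simp only [aeval_X] at h1
    rw [← h1, haev0]
    have h2 : ((rmat M u v (X : Fin N → MvPolynomial (Fin N) E)).submatrix f id).det ∈ Px :=
      (minors_le_iff _ _).1 hPxm.1.2 f
    rw [Ideal.Quotient.eq_zero_iff_mem.2 h2, map_zero])
  obtain ⟨i₀, hi₀⟩ : ∃ i, w' i ≠ 0 := by
    by_contra h
    push Not at h
    exact hw'0 (funext h)
  set w₀ : Fin b → K₀ := (w' i₀)⁻¹ • w' with hw₀
  have hw : (rmat M u v x₀).mulVec w₀ = 0 := by
    rw [hw₀, Matrix.mulVec_smul, hw', smul_zero]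
  have hwi : w₀ i₀ = 1 := by
    rw [hw₀, Pi.smul_apply, smul_eq_mul, inv_mul_cancel₀ hi₀]
  obtain ⟨d, hd, f, hfe, hf⟩ := alg_indep M u v Px hPxm hPx0 K₀ x₀ (fun e => rfl) w₀ hw i₀ hwi
  -- transport to `K`
  let w : Fin b → K := fun j => σ (w₀ j)
  have hform : ∀ e, form v w e = σ (form v w₀ e) := fun e => form_map v σ w₀ e
  have hform0 : ∀ e, form v w e = 0 ↔ form v w₀ e = 0 := by
    intro e
    rw [hform, map_eq_zero_iff _ hσ]
  have hspace : space v x w = (space v x₀ w₀).map σ.toLinearMap := by
    rw [space, space, Submodule.map_span, ← Set.range_comp]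
    congr 2
    funext q
    rcases q with j | e
    · rfl
    · change x e * form v w e = σ (x₀ e * form v w₀ e)
      rw [hform, map_mul, hσx]
  have hfin : Module.finrank E (space v x w) = d + 1 := by
    rw [hspace, ← hd]
    exact (LinearEquiv.finrank_eq (Submodule.equivMapOfInjective σ.toLinearMap hσ _)).symm
  have hcard : Fintype.card {e : Fin N // form v w e = 0} =
      Fintype.card {e : Fin N // form v w₀ e = 0} :=
    Fintype.card_congr (Equiv.subtypeEquivRight hform0)
  have hwK : (rmat M u v x).mulVec w = 0 := by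
    have h1 := mulVec_map M u v σ x₀ w₀ hw
    have h2 : (fun e => σ (x₀ e)) = x := funext hσx
    rw [h2] at h1
    exact h1
  have hwi1 : w i₀ = 1 := by change σ (w₀ i₀) = 1; rw [hwi, map_one]
  refine ⟨w, i₀, hwi1, hwK, fun z hz hz0 => kernel_line M u v Px hPxm hPx0 x hPx w z hwK hz i₀
    (by rw [hwi1]; exact one_ne_zero) hz0, ?_, ?_⟩
  · intro e he h0
    have h1 := hf.ne_zero (Sum.inr ⟨e, (hform0 e).1 he⟩)
    rw [hfe] at h1
    apply h1
    apply hσ
    change σ (x₀ e) = σ 0
    rw [hσx, map_zero, hx]
    change t e ^ m e = 0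
    rw [h0, zero_pow (hm e).ne']
  · -- the lower bound
    have hlow : ((d + Fintype.card {e : Fin N // form v w₀ e = 0} : ℕ) : Cardinal.{u}) ≤
        Algebra.trdeg E K := by
      have h1 := (hf.map' (f := σ) hσ).lift_cardinalMk_le_trdeg
      rw [Cardinal.mk_fintype, Cardinal.lift_natCast, Fintype.card_sum, Fintype.card_fin] at h1
      simpa using h1
    -- the upper bound
    have hup : Algebra.trdeg E K < ((d + 1 + Fintype.card {e : Fin N // form v w₀ e = 0} : ℕ) :
        Cardinal.{u}) := by
      let z : Fin N → K := fun e => if form v w e = 0 then x e else 0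
      let V : Fin (1 + N) → Submodule E K := Fin.addCases (fun _ => space v x w)
        fun e => Submodule.span E {z e}
      have hV1 : ∀ e : Fin N, V (Fin.natAdd 1 e) = Submodule.span E {z e} := by
        intro e
        exact Fin.addCases_right (motive := fun _ => Submodule E K) e
      have hV0 : ∀ i : Fin 1, V (Fin.castAdd N i) = space v x w := by
        intro i
        exact Fin.addCases_left (motive := fun _ => Submodule E K) i
      have hVfd : ∀ s, FiniteDimensional E (V s) := by
        intro s
        induction s using Fin.addCases with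
        | left i => rw [hV0]; infer_instance
        | right e => rw [hV1]; exact FiniteDimensional.span_of_finite E (Set.finite_singleton _)
      have halg : Algebra.IsAlgebraic (IntermediateField.adjoin E (⋃ s, (V s : Set K))) K := by
        set L := IntermediateField.adjoin E (⋃ s, (V s : Set K)) with hL
        have hsub : ∀ s, ∀ y ∈ V s, y ∈ L := fun s y hy =>
          IntermediateField.subset_adjoin _ _ (Set.mem_iUnion.2 ⟨s, hy⟩)
        have hxL : ∀ e, x e ∈ L := by
          intro e
          by_cases h : form v w e = 0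
          · refine hsub (Fin.natAdd 1 e) _ ?_
            rw [hV1]
            have : z e = x e := if_pos h
            rw [this]
            exact Submodule.mem_span_singleton_self _
          · have h2 : x e = (x e * form v w e) * (form v w e)⁻¹ := by field_simp
            rw [h2]
            refine mul_mem (hsub (Fin.castAdd N 0) _ ?_) (inv_mem (hsub (Fin.castAdd N 0) _ ?_))
            · rw [hV0]
              exact xform_mem v x w e
            · rw [hV0]
              exact form_mem v x w e
        have h1 : ∀ e, IsAlgebraic L (t e) := by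
          intro e
          refine IsAlgebraic.of_pow (hm e) ?_
          exact isAlgebraic_algebraMap (⟨x e, hxL e⟩ : L)
        have h2 : ∀ y : K, IsAlgebraic L y := by
          intro y
          have hy : y ∈ IntermediateField.adjoin E (Set.range t) := by rw [hgen]; trivial
          induction hy using IntermediateField.adjoin_induction with
          | mem y hy =>
            obtain ⟨e, rfl⟩ := hy
            exact h1 e
          | algebraMap c => exact isAlgebraic_algebraMap (⟨_, L.algebraMap_mem c⟩ : L)
          | add y z _ _ hy hz => exact hy.add hz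
          | inv y _ hy => exact hy.inv
          | mul y z _ _ hy hz => exact hy.mul hz
        exact ⟨h2⟩
      have h1V : (1 : K) ∈ V (Fin.castAdd N 0) := by
        rw [hV0]
        have : w i₀ = 1 := by change σ (w₀ i₀) = 1; rw [hwi, map_one]
        rw [← this]
        exact w_mem v x w i₀
      refine (Pool.Agent.U186.RO.trdeg_lt_sum V halg (Fin.castAdd N 0) h1V).trans_le ?_
      rw [Fin.sum_univ_add, Fin.sum_univ_one, hV0, hfin]
      have h3 : ∑ e, Module.finrank E (V (Fin.natAdd 1 e)) ≤
          Fintype.card {e : Fin N // form v w₀ e = 0} := by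
        rw [← hcard, Fintype.card_subtype, Finset.card_filter]
        refine Finset.sum_le_sum fun e _ => ?_
        rw [hV1]
        split_ifs with h
        · refine (finrank_span_le_card ({z e} : Set K)).trans ?_
          simp
        · have : z e = 0 := if_neg h
          rw [this]
          simp
      exact_mod_cast Nat.add_le_add_left h3 _
    obtain ⟨τ, hτ⟩ := Cardinal.lt_aleph0.1 (hup.trans Cardinal.natCast_lt_aleph0)
    rw [hτ] at hlow hup ⊢
    rw [hfin, Nat.card_eq_fintype_card, hcard]
    have h1 : d + Fintype.card {e : Fin N // form v w₀ e = 0} ≤ τ := by exact_mod_cast hlow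
    have h2 : τ < d + 1 + Fintype.card {e : Fin N // form v w₀ e = 0} := by exact_mod_cast hup
    have h3 : τ + 1 = d + 1 + Fintype.card {e : Fin N // form v w₀ e = 0} := by omega
    exact_mod_cast h3

/-- The transcendence degree, for any kernel vector with a coordinate one. -/
theorem comp_data3 (hm : ∀ e, 0 < m e)
    (hI : minors (rmat M u v (fun e => (X e : MvPolynomial (Fin N) E) ^ m e)) ≠ ⊥)
    (P : Ideal (MvPolynomial (Fin N) E))
    (hPm : P ∈ (minors (rmat M u v
      (fun e => (X e : MvPolynomial (Fin N) E) ^ m e))).minimalPrimes)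
    (K : Type u) [Field K] [Algebra E K] (t : Fin N → K)
    (hgen : IntermediateField.adjoin E (Set.range t) = ⊤)
    (hP : ∀ G : MvPolynomial (Fin N) E, G ∈ P ↔ aeval t G = (0 : K))
    (w : Fin b → K) (i₀ : Fin b) (hwi : w i₀ = 1)
    (hw : (rmat M u v (fun e => t e ^ m e)).mulVec w = 0) :
    (∀ e, form v w e = 0 → t e ≠ 0) ∧
      Algebra.trdeg E K + 1 = ((Module.finrank E (space v (fun e => t e ^ m e) w) +
        Nat.card {e : Fin N // form v w e = 0} : ℕ) : Cardinal.{u}) := by
  classical
  obtain ⟨w', i', h1, h2, h3, h4, h5⟩ := comp_data2 M u v m hm hI P hPm K t hgen hP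
  set x : Fin N → K := fun e => t e ^ m e with hx
  have h6 : w - w i' • w' = 0 := by
    apply h3
    · rw [Matrix.mulVec_sub, Matrix.mulVec_smul, hw, h2, smul_zero, sub_zero]
    · rw [Pi.sub_apply, Pi.smul_apply, h1, smul_eq_mul, mul_one, sub_self]
  set c := w i' with hc
  have h7 : w = c • w' := sub_eq_zero.1 h6
  have hc0 : c ≠ 0 := by
    intro h0
    rw [h0, zero_smul] at h7
    rw [h7, Pi.zero_apply] at hwi
    exact zero_ne_one hwi
  have hform : ∀ e, form v w e = c * form v w' e := by
    intro e
    rw [h7]
    simp only [form, Pi.smul_apply, smul_eq_mul, Finset.mul_sum]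
    refine Finset.sum_congr rfl fun j _ => ?_
    ring
  have hform0 : ∀ e, form v w e = 0 ↔ form v w' e = 0 := by
    intro e
    rw [hform, mul_eq_zero, or_iff_right hc0]
  let L : K →ₗ[E] K := LinearMap.mulLeft E c
  have hL : Function.Injective L := by
    intro y z hyz
    exact mul_left_cancel₀ hc0 hyz
  have hspace : space v x w = (space v x w').map L := by
    rw [space, space, Submodule.map_span, ← Set.range_comp]
    congr 2
    funext q
    rcases q with j | e
    · change w j = c * w' j
      rw [h7]
      rfl
    · change x e * form v w e = c * (x e * form v w' e)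
      rw [hform]
      ring
  have hfin : Module.finrank E (space v x w) = Module.finrank E (space v x w') := by
    rw [hspace]
    exact (LinearEquiv.finrank_eq (Submodule.equivMapOfInjective L hL _)).symm
  refine ⟨fun e he => h4 e ((hform0 e).1 he), ?_⟩
  rw [h5, hfin, Nat.card_congr (Equiv.subtypeEquivRight hform0)]

end comp

end Pool.Agent.U186.RD
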