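import Pool.Agent.U186.ASC.Sys
import Pool.Agent.W418.LU2.Final

/-!
# Rank drop loci: the ascent of log uniformization
-/

set_option autoImplicit false

universe u

namespace Pool.Agent.U186.RD

open MvPolynomial Pool.Agent.W418.LU2

section mons

variable {E K : Type u} [Field E] [Field K] [Algebra E K] {b N : ℕ}

/-- The group of monomials: generated by the nonzero elements of `E`, the nonzero elements of
`space` (linear combinations of the `w j` and of the `t e ^ m e * form e`) and the nonzero `t e`. -/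
def mons (v : Fin N → Fin b → E) (t : Fin N → K) (m : Fin N → ℕ) (w : Fin b → K) : Subgroup Kˣ :=
  Subgroup.closure {u | (u : K) ∈ Set.range (algebraMap E K) ∨
    (u : K) ∈ space v (fun e => t e ^ m e) w ∨ ∃ e, (u : K) = t e}

lemma mons_eq (v : Fin N → Fin b → E) (t : Fin N → K) (m : Fin N → ℕ) (w : Fin b → K)
    (V : Fin (1 + N) → Submodule E K) {r : ℕ}
    (hV0 : V ⟨0, by omega⟩ = space v (fun e => t e ^ m e) w)
    (hV1 : ∀ e : Fin N, V ⟨1 + e, by omega⟩ = Submodule.span E {t e}) :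
    monomials V (fun _ : Fin r => (0 : K)) = mons v t m w := by
  apply le_antisymm
  · unfold monomials
    rw [Subgroup.closure_le]
    rintro y (hy | ⟨s, hs⟩ | ⟨l, hl⟩)
    · exact Subgroup.subset_closure (Or.inl hy)
    · by_cases h0 : (s : ℕ) = 0
      · have h1 : s = ⟨0, by omega⟩ := Fin.ext h0
        rw [h1, hV0] at hs
        exact Subgroup.subset_closure (Or.inr (Or.inl hs))
      · have h1 : s = ⟨1 + ((⟨s - 1, by omega⟩ : Fin N) : ℕ), by simp only; omega⟩ := Fin.ext (by
          simp only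
          omega)
        rw [h1, hV1] at hs
        obtain ⟨c, hc⟩ := Submodule.mem_span_singleton.1 hs
        set e : Fin N := ⟨s - 1, by omega⟩
        have hy0 : (y : K) ≠ 0 := y.ne_zero
        rw [← hc, Algebra.smul_def] at hy0
        have hc0 := left_ne_zero_of_mul hy0
        have ht0 := right_ne_zero_of_mul hy0
        have h2 : y = Units.mk0 _ hc0 * Units.mk0 _ ht0 := by
          ext
          rw [Units.val_mul, Units.val_mk0, Units.val_mk0, ← hc, Algebra.smul_def]
        rw [h2]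
        exact mul_mem (Subgroup.subset_closure (Or.inl ⟨c, rfl⟩))
          (Subgroup.subset_closure (Or.inr (Or.inr ⟨e, rfl⟩)))
    · exact absurd hl y.ne_zero
  · unfold mons
    rw [Subgroup.closure_le]
    rintro y (hy | hy | ⟨e, he⟩)
    · exact Subgroup.subset_closure (Or.inl hy)
    · refine Subgroup.subset_closure (Or.inr (Or.inl ⟨⟨0, by omega⟩, ?_⟩))
      rw [hV0]
      exact hy
    · refine Subgroup.subset_closure (Or.inr (Or.inl ⟨⟨1 + e, by omega⟩, ?_⟩))
      rw [hV1, he]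
      exact Submodule.mem_span_singleton_self _

/-- The elements with a multiple in `A`, by a factor in `R`. -/
def dens (R : Subring E) (A : Subring K) (hRA : ∀ a ∈ R, algebraMap E K a ∈ A) : Subring K :=
  { carrier := {z | ∃ b ∈ R, b ≠ 0 ∧ algebraMap E K b * z ∈ A}
    mul_mem' := by
      rintro z z' ⟨b, hb, hb0, h⟩ ⟨b', hb', hb0', h'⟩
      refine ⟨b * b', R.mul_mem hb hb', mul_ne_zero hb0 hb0', ?_⟩
      rw [map_mul, mul_mul_mul_comm]
      exact A.mul_mem h h'
    one_mem' := ⟨1, R.one_mem, one_ne_zero, by rw [map_one, one_mul]; exact A.one_mem⟩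
    add_mem' := by
      rintro z z' ⟨b, hb, hb0, h⟩ ⟨b', hb', hb0', h'⟩
      refine ⟨b * b', R.mul_mem hb hb', mul_ne_zero hb0 hb0', ?_⟩
      have h1 : algebraMap E K (b * b') * (z + z') = algebraMap E K b' *
          (algebraMap E K b * z) + algebraMap E K b * (algebraMap E K b' * z') := by
        rw [map_mul]; ring
      rw [h1]
      exact A.add_mem (A.mul_mem (hRA _ hb') h) (A.mul_mem (hRA _ hb) h')
    zero_mem' := ⟨1, R.one_mem, one_ne_zero, by rw [mul_zero]; exact A.zero_mem⟩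
    neg_mem' := by
      rintro z ⟨b, hb, hb0, h⟩
      refine ⟨b, hb, hb0, ?_⟩
      rw [mul_neg]
      exact A.neg_mem h }

/-- The ideal is generated by finitely many monomials. -/
def MonIdeal (v : Fin N → Fin b → E) (t : Fin N → K) (m : Fin N → ℕ) (w : Fin b → K)
    {A : Subring K} (I : Ideal A) : Prop :=
  I ≠ ⊥ ∧ ∃ S : Set A, S.Finite ∧
    (∀ a ∈ S, (a : K) ≠ 0 → ∃ u ∈ mons v t m w, (u : K) = a) ∧ I = Ideal.span S

end mons

/-- **Ascent of log uniformization to rank drop loci.** -/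
theorem drop_ascent {E K : Type u} [Field E] [Field K] [Algebra E K] (V : ValuationSubring K)
    (p : ℕ) [hp : Fact p.Prime] (hpV : V.valuation (p : K) < 1)
    (R : Subring E) [IsNoetherianRing R]
    (hfr : ∀ z : E, ∃ a ∈ R, ∃ b ∈ R, b ≠ 0 ∧ z = a * b⁻¹)
    (hRV : ∀ a ∈ R, algebraMap E K a ∈ V)
    (hLU : LogUnif (V.comap (algebraMap E K)) R)
    {a b N : ℕ} (M : Matrix (Fin a) (Fin b) E) (u : Fin N → Fin a → E)
    (v : Fin N → Fin b → E) (m : Fin N → ℕ) (hm : ∀ e, ¬ p ∣ m e)
    (hI : minors (rmat M u v (fun e => (X e : MvPolynomial (Fin N) E) ^ m e)) ≠ ⊥)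
    (P : Ideal (MvPolynomial (Fin N) E))
    (hPm : P ∈ (minors (rmat M u v
      (fun e => (X e : MvPolynomial (Fin N) E) ^ m e))).minimalPrimes)
    (t : Fin N → K) (hgen : IntermediateField.adjoin E (Set.range t) = ⊤)
    (hP : ∀ G : MvPolynomial (Fin N) E, G ∈ P ↔ aeval t G = (0 : K))
    (w : Fin b → K) (i₀ : Fin b) (hwi : w i₀ = 1)
    (hw : (rmat M u v (fun e => t e ^ m e)).mulVec w = 0)
    (G : Set K) (hG : G.Finite) (hGm : ∀ z ∈ G, ∃ u ∈ mons v t m w, (u : K) = z)
    (A : Subring K) (hA : A = Subring.closure ((R.map (algebraMap E K) : Set K) ∪ G))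
    (hAV : A ≤ V.toSubring)
    (htA : ∀ e, ∃ c ∈ R, c ≠ 0 ∧ algebraMap E K c * t e ∈ A)
    (hwA : ∀ j, ∃ c ∈ R, c ≠ 0 ∧ algebraMap E K c * w j ∈ A)
    (D I₀ : Ideal A) (hD : MonIdeal v t m w D) (hI₀ : MonIdeal v t m w I₀) :
    ∃ I₁ : Ideal A, MonIdeal v t m w I₁ ∧ LogDesing V A D (I₀ * I₁) := by
  have hm0 : ∀ e, 0 < m e := by
    intro e
    refine Nat.pos_of_ne_zero fun h => hm e ?_
    rw [h]
    exact dvd_zero p
  obtain ⟨hft, htr⟩ := comp_data3 M u v m hm0 hI P hPm K t hgen hP w i₀ hwi hw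
  obtain ⟨W, hfd, r, c, d, g, hV0, hV1, hgen', hc, hgW, hg0, hf, hdeg, hind, htr'⟩ :=
    drop_sys p E K v t m hm hgen w i₀ hwi hft htr
  have hRA : ∀ a ∈ R, algebraMap E K a ∈ A := by
    intro a ha
    rw [hA]
    exact Subring.subset_closure (Or.inl ⟨a, ha, rfl⟩)
  have hQE : ∀ z : E, algebraMap E K z ∈ dens R A hRA := by
    intro z
    obtain ⟨a', ha', c', hc', hc0', rfl⟩ := hfr z
    refine ⟨c', hc', hc0', ?_⟩
    rw [← map_mul, mul_comm a', mul_inv_cancel_left₀ hc0']
    exact hRA _ ha'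
  have hQt : ∀ e, t e ∈ dens R A hRA := fun e => htA e
  have hQw : ∀ j, w j ∈ dens R A hRA := fun j => hwA j
  have hQspan : ∀ (S : Set K), (∀ z ∈ S, z ∈ dens R A hRA) → ∀ y ∈ Submodule.span E S,
      y ∈ dens R A hRA := by
    intro S hS y hy
    induction hy using Submodule.span_induction with
    | mem y hy => exact hS y hy
    | zero => exact zero_mem _
    | add y z _ _ h1 h2 => exact add_mem h1 h2
    | smul c y _ h1 =>
      rw [Algebra.smul_def]
      exact mul_mem (hQE c) h1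
  have hWA : ∀ s, ∀ y ∈ W s, ∃ c ∈ R, c ≠ 0 ∧ algebraMap E K c * y ∈ A := by
    intro s y hy
    by_cases h0 : (s : ℕ) = 0
    · have h1 : s = ⟨0, by omega⟩ := Fin.ext h0
      rw [h1, hV0] at hy
      refine hQspan _ ?_ y hy
      rintro _ ⟨q, rfl⟩
      rcases q with j | e
      · exact hQw j
      · change t e ^ m e * form v w e ∈ dens R A hRA
        refine mul_mem (pow_mem (hQt e) _) ?_
        exact sum_mem fun j _ => mul_mem (hQE _) (hQw j)
    · have h1 : s = ⟨1 + ((⟨s - 1, by omega⟩ : Fin N) : ℕ), by simp only; omega⟩ := Fin.ext (by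
        simp only
        omega)
      rw [h1, hV1] at hy
      refine hQspan _ ?_ y hy
      rintro z hz
      rw [Set.mem_singleton_iff.1 hz]
      exact hQt _
  have hmon := mons_eq v t m w W (r := r) hV0 hV1
  have hmonI : ∀ I : Ideal A, IsMonomialIdeal W (fun _ : Fin r => (0 : K)) I ↔
      MonIdeal v t m w I := by
    intro I
    unfold IsMonomialIdeal MonIdeal IsMonomial
    rw [hmon]
  obtain ⟨I₁, h1, h2⟩ := ascent V (p := p) hpV R hfr hRV hLU W hgen' (fun _ => Fin 2)
    (fun _ => 0) c hc d (fun j i s _ => g j i s) hgW hg0 (fun _ _ _ => 0)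
    (fun _ => 0) (fun j i l h => absurd rfl h) hf (fun j s => (d j 0 s : ZMod p)) hdeg hind htr'
    A G hG (by
      intro z hz
      unfold IsMonomial
      rw [hmon]
      exact hGm z hz) hA hAV hWA D I₀ ((hmonI D).2 hD) ((hmonI I₀).2 hI₀)
  exact ⟨I₁, (hmonI I₁).1 h1, h2⟩

end Pool.Agent.U186.RD
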