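import Pool.Agent.U186.ASC.Fin
import Pool.Agent.N102.FL.Stg
import Pool.Agent.N102.FL.LPts

/-!
# Stages over monomial models, in mixed characteristic

Adapted from `Pool.Agent.N102.FL.STG.t_stg` (helper853, helper102), with the systems of
`Pool.Agent.W418.LU2`.
-/

set_option autoImplicit false
set_option linter.unusedVariables false
set_option linter.unusedSectionVars false

universe u

namespace Pool.Agent.U186.RD

open IsLocalRing Pool.Agent.W418.LU2 Pool.Agent.N102.FL Pool.Agent.N498.FL Pool.Agent.H176.DT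
  Pool.Agent.N102.FL.STG

/-- The stages over monomial models. -/
theorem t_stg2 {E K : Type u} [Field E] [Field K] [Algebra E K] (V : ValuationSubring K)
    {p : ℕ} [hp : Fact p.Prime] (hpV : V.valuation (p : K) < 1) (R : Subring E)
    [IsNoetherianRing R] (hfr : ∀ z : E, ∃ a ∈ R, ∃ b ∈ R, b ≠ 0 ∧ z = a * b⁻¹)
    (hRV : ∀ a ∈ R, algebraMap E K a ∈ V) (hLU : LogUnif (V.comap (algebraMap E K)) R)
    (Θ : Type) [Fintype Θ] (y : Θ → K) (hy : ∀ θ, y θ ≠ 0)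
    (hyfr : ∀ z : K, ∃ a b : MvPolynomial Θ E, ph (E := E) y b ≠ 0 ∧
      z * ph (E := E) y b = ph (E := E) y a)
    (Hc : Set E) (𝒮 : Sys E Θ) (hHcf : Hc.Finite) (hHc0 : ∀ h ∈ Hc, h ≠ 0) (hOk : 𝒮.Ok y V p)
    (hPM𝒮 : ∀ {ι' : Type} [Fintype ι'] (P : Subring E) (z : ι' → E), (∀ i, z i ≠ 0) →
        (∀ h ∈ Hc, PMon P z h) → ∀ k i, PMon P z (𝒮.c k i))
    (htr : Algebra.trdeg E K + (Fintype.card 𝒮.κ : Cardinal.{u}) = Fintype.card Θ)
    (A : Subring K) (Gen : Set K) (hGenf : Gen.Finite) (hGen : ∀ z ∈ Gen, Mon E y z)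
    (hA : A = Subring.closure ((R.map (algebraMap E K) : Set K) ∪ Gen)) (hAV : A ≤ V.toSubring)
    (hbθ : ∀ θ, ∃ b ∈ A, Mon E y b ∧ b * y θ ∈ A)
    (M : Set K) (hMf : M.Finite) (hM : ∀ g ∈ M, Mon E y g) :
    ∃ (T : Set K) (n : ℕ) (X : Fin n → K), Pool.Agent.H176.DT.St V A T X ∧
      ∀ g ∈ M, PMon (Pool.Agent.H176.DT.PP V A T) X g := by
  classical
  have hRA : ∀ a ∈ R, algebraMap E K a ∈ A := by
    intro a ha
    rw [hA]
    exact Subring.subset_closure (Or.inl ⟨a, ha, rfl⟩)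
  have hGenA : ∀ z ∈ Gen, z ∈ A := by
    intro z hz
    rw [hA]
    exact Subring.subset_closure (Or.inr hz)
  -- the monomials
  choose bθ hbR hb0 hbA using hbθ
  let Z : Set K := Gen ∪ M ∪ Set.range bθ
  have hZf : Z.Finite := (hGenf.union hMf).union (Set.finite_range _)
  have hZm : ∀ z ∈ Z, Mon E y z := by
    rintro z ((hz | hz) | ⟨θ, rfl⟩)
    · exact hGen z hz
    · exact hM z hz
    · exact hb0 θ
  have hZm' : ∀ z ∈ Z, ∃ (a : E) (m : Θ → ℤ), a ≠ 0 ∧ z = algebraMap E K a * mo y m := hZm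
  choose! ez mz hez0 hmz using hZm'
  -- the base
  have hRW : R ≤ (V.comap (algebraMap E K)).toSubring := fun a ha => hRV a ha
  obtain ⟨Wb, fb, n0, x₀, hWbf, hfbR, hfb0, hWb, hx₀, hreg₀, hfbm, hHm⟩ :=
    base (V.comap (algebraMap E K)) R hRW hfr hLU (Hc ∪ ez '' Z)
      (hHcf.union (hZf.image _)) (by
        rintro h (hh | ⟨z, hz, rfl⟩)
        · exact hHc0 h hh
        · exact hez0 z hz)
  set C := Subring.closure ((R : Set E) ∪ Wb) with hC
  have hCW : C ≤ (V.comap (algebraMap E K)).toSubring := by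
    rw [hC, Subring.closure_le]
    rintro z (hz | hz)
    · exact hRW hz
    · exact (hWb z hz).1
  have hRC : R ≤ C := fun a ha => Subring.subset_closure (Or.inl ha)
  have hCE : ∀ a : E, ∃ b ∈ C, b ≠ 0 ∧ a * b ∈ C := by
    intro a
    obtain ⟨a', ha', b, hb, hb0, rfl⟩ := hfr a
    refine ⟨b, hRC hb, hb0, ?_⟩
    rw [mul_assoc, inv_mul_cancel₀ hb0, mul_one]
    exact hRC ha'
  -- the construction
  obtain ⟨T, κ, _, x, hTf, hTV, hTm, hreg, hPMalg, hPMy, hGV⟩ :=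
    main_cut hy hpV hreg₀ hCW hCE 𝒮 hOk
      (hPM𝒮 _ x₀ hreg₀.ne fun h hh => hHm h (Or.inl hh)) hyfr htr
      (G := (fun z => (ez z, mz z)) '' Z) (hZf.image _) (by
        rintro _ ⟨z, hz, rfl⟩
        exact hHm _ (Or.inr ⟨z, hz, rfl⟩))
  set B := Subring.closure (C.map (algebraMap E K) ∪ T) with hB
  set P := lo V.toSubring B with hP
  have hBV : B ≤ V.toSubring := by
    rw [hB, Subring.closure_le]
    rintro w (⟨c, hc, rfl⟩ | hw)
    · exact hCW hc
    · exact hTV w hw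
  have hBP : B ≤ P := le_lo _ _
  have hCP : ∀ c ∈ C, algebraMap E K c ∈ P := fun c hc =>
    hBP (Subring.subset_closure (Or.inl ⟨c, hc, rfl⟩))
  have hTP : ∀ t ∈ T, t ∈ P := fun t ht => hBP (Subring.subset_closure (Or.inr ht))
  -- the monomials
  have hZP : ∀ z ∈ Z, z ∈ V → z ∈ P := by
    intro z hz hzV
    have h1 := hGV (ez z, mz z) ⟨z, hz, rfl⟩
    simp only [← hmz z hz] at h1
    exact h1 hzV
  have hZPM : ∀ z ∈ Z, PMon P x z := by
    intro z hz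
    rw [hmz z hz]
    exact (hPMalg _ (hHm _ (Or.inr ⟨z, hz, rfl⟩))).mul hreg.ne (PMon.mo hreg.ne hPMy _)
  have hAP : A ≤ P := by
    rw [hA, Subring.closure_le]
    rintro z (⟨a, ha, rfl⟩ | hz)
    · exact hCP _ (hRC ha)
    · exact hZP z (Or.inl (Or.inl hz)) (hAV (hGenA z hz))
  -- the fractions
  let Qm : Set K := {α | α ∈ A ∧ Mon E y α ∧ PMon P x α}
  have hQmul : ∀ α ∈ Qm, ∀ β ∈ Qm, α * β ∈ Qm := fun α hα β hβ =>
    ⟨A.mul_mem hα.1 hβ.1, mon_mul hα.2.1 hy hβ.2.1, hα.2.2.mul hreg.ne hβ.2.2⟩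
  have hQone : (1 : K) ∈ Qm := ⟨A.one_mem, mon_one, PMon.one⟩
  let Fr : Set K := {z | ∃ α ∈ Qm, ∃ β ∈ Qm, z = α * β⁻¹}
  have hFmul : ∀ z ∈ Fr, ∀ w ∈ Fr, z * w ∈ Fr := by
    rintro _ ⟨α, hα, β, hβ, rfl⟩ _ ⟨α', hα', β', hβ', rfl⟩
    refine ⟨α * α', hQmul _ hα _ hα', β * β', hQmul _ hβ _ hβ', ?_⟩
    rw [mul_inv]
    ring
  have hFinv : ∀ z ∈ Fr, z⁻¹ ∈ Fr := by
    rintro _ ⟨α, hα, β, hβ, rfl⟩
    refine ⟨β, hβ, α, hα, ?_⟩
    rw [mul_inv, inv_inv, mul_comm]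
  have hFone : (1 : K) ∈ Fr := ⟨1, hQone, 1, hQone, by simp⟩
  have hFpow : ∀ z ∈ Fr, ∀ n : ℕ, z ^ n ∈ Fr := by
    intro z hz n
    induction n with
    | zero => rw [pow_zero]; exact hFone
    | succ n ih => rw [pow_succ]; exact hFmul _ ih _ hz
  have hFzpow : ∀ z ∈ Fr, ∀ n : ℤ, z ^ n ∈ Fr := by
    intro z hz n
    rcases Int.eq_nat_or_neg n with ⟨n', rfl | rfl⟩
    · rw [zpow_natCast]; exact hFpow z hz n'
    · rw [zpow_neg, zpow_natCast]; exact hFinv _ (hFpow z hz n')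
  have hFmo : ∀ {κ' : Type} [Fintype κ'] (w : κ' → K), (∀ i, w i ∈ Fr) → ∀ m, mo w m ∈ Fr := by
    intro κ' _ w hw m
    unfold mo
    have h1 : ∀ s : Finset κ', ∏ i ∈ s, w i ^ m i ∈ Fr := by
      intro s
      induction s using Finset.induction_on with
      | empty => rw [Finset.prod_empty]; exact hFone
      | insert i s hi ih =>
        rw [Finset.prod_insert hi]
        exact hFmul _ (hFzpow _ (hw i) _) _ ih
    exact h1 _
  have hFy : ∀ θ, y θ ∈ Fr := by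
    intro θ
    have h1 : Mon E y (bθ θ) := hb0 θ
    have h2 : Mon E y (y θ) := mon_coord θ
    have h3 : PMon P x (bθ θ) := hZPM _ (Or.inr ⟨θ, rfl⟩)
    refine ⟨bθ θ * y θ, ⟨hbA θ, mon_mul h1 hy h2, h3.mul hreg.ne (hPMy θ)⟩,
      bθ θ, ⟨hbR θ, h1, h3⟩, ?_⟩
    rw [mul_comm, ← mul_assoc, inv_mul_cancel₀ (mon_ne h1 hy), one_mul]
  have hfbQ : algebraMap E K fb ∈ Qm := ⟨hRA _ hfbR, mon_alg hfb0, hPMalg _ hfbm⟩
  have hfbpow : ∀ k : ℕ, algebraMap E K (fb ^ k) ∈ Qm := by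
    intro k
    induction k with
    | zero => rw [pow_zero, map_one]; exact hQone
    | succ k ih => rw [pow_succ, map_mul]; exact hQmul _ ih _ hfbQ
  have hCfb : ∀ z ∈ C, ∃ k : ℕ, z * fb ^ k ∈ R := by
    intro z hz
    rw [hC] at hz
    induction hz using Subring.closure_induction with
    | mem z hz =>
      rcases hz with hz | hz
      · exact ⟨0, by rw [pow_zero, mul_one]; exact hz⟩
      · exact ⟨1, by rw [pow_one]; exact (hWb z hz).2⟩
    | zero => exact ⟨0, by rw [zero_mul]; exact R.zero_mem⟩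
    | one => exact ⟨0, by rw [pow_zero, mul_one]; exact R.one_mem⟩
    | add a b _ _ ha hb =>
      obtain ⟨k, hk⟩ := ha
      obtain ⟨k', hk'⟩ := hb
      refine ⟨k + k', ?_⟩
      have h1 : (a + b) * fb ^ (k + k') = a * fb ^ k * fb ^ k' + b * fb ^ k' * fb ^ k := by
        rw [pow_add]; ring
      rw [h1]
      exact R.add_mem (R.mul_mem hk (R.pow_mem hfbR _)) (R.mul_mem hk' (R.pow_mem hfbR _))
    | neg a _ ha =>
      obtain ⟨k, hk⟩ := ha
      exact ⟨k, by rw [neg_mul]; exact R.neg_mem hk⟩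
    | mul a b _ _ ha hb =>
      obtain ⟨k, hk⟩ := ha
      obtain ⟨k', hk'⟩ := hb
      refine ⟨k + k', ?_⟩
      have h1 : a * b * fb ^ (k + k') = a * fb ^ k * (b * fb ^ k') := by
        rw [pow_add]; ring
      rw [h1]
      exact R.mul_mem hk hk'
  have hFx : ∀ i, algebraMap E K (x₀ i) ∈ Fr := by
    intro i
    obtain ⟨k, hk⟩ := hCfb _ (hx₀ i)
    have h1 : PMon P x (algebraMap E K (x₀ i)) := hPMalg _ (by
      have h2 := PMon.of_mo (P := lo (V.comap (algebraMap E K)).toSubring C) (x := x₀)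
        (Pi.single i 1)
      rwa [mo_single] at h2)
    refine ⟨algebraMap E K (x₀ i * fb ^ k), ⟨hRA _ hk, mon_alg (mul_ne_zero
      (hreg₀.ne i) (pow_ne_zero _ hfb0)), ?_⟩, algebraMap E K (fb ^ k), hfbpow k, ?_⟩
    · rw [map_mul]
      exact h1.mul hreg.ne (hfbpow k).2.2
    · rw [map_mul, mul_assoc, mul_inv_cancel₀ (mon_ne (hfbpow k).2.1 hy), mul_one]
  have hFT : ∀ t ∈ T, t ∈ Fr := by
    intro t ht
    obtain ⟨γ, m, rfl⟩ := hTm t ht
    refine hFmul _ ?_ _ (hFmo y hFy m)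
    have h1 : algebraMap E K (mo x₀ γ) = mo (fun i => algebraMap E K (x₀ i)) γ := by
      unfold mo
      rw [map_prod]
      exact Finset.prod_congr rfl fun i _ => map_zpow₀ _ _ _
    rw [h1]
    exact hFmo _ hFx γ
  -- the denominators
  set T' : Set K := T ∪ algebraMap E K '' Wb with hT'
  have hTf' : T'.Finite := hTf.union (hWbf.image _)
  have hdT : ∀ t ∈ T', ∃ β ∈ A, PMon P x β ∧ β * t ∈ A := by
    rintro t (ht | ⟨w, hw, rfl⟩)
    · obtain ⟨α, hα, β, hβ, h1⟩ := hFT t ht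
      refine ⟨β, hβ.1, hβ.2.2, ?_⟩
      have h2 : β * t = α := by
        rw [h1, mul_comm, mul_assoc, inv_mul_cancel₀ (mon_ne hβ.2.1 hy), mul_one]
      rw [h2]
      exact hα.1
    · refine ⟨algebraMap E K fb, hfbQ.1, hfbQ.2.2, ?_⟩
      rw [← map_mul, mul_comm]
      exact hRA _ (hWb w hw).2
  set B' := Subring.closure ((A : Set K) ∪ T') with hB'
  have hB'P : B' ≤ P := by
    rw [hB', Subring.closure_le]
    rintro z (hz | hz | ⟨w, hw, rfl⟩)
    · exact hAP hz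
    · exact hTP z hz
    · exact hCP _ (Subring.subset_closure (Or.inr hw))
  have hBB' : B ≤ B' := by
    rw [hB, Subring.closure_le]
    rintro z (⟨c, hc, rfl⟩ | hz)
    · have h1 : C ≤ B'.comap (algebraMap E K) := by
        rw [hC, Subring.closure_le]
        rintro c (hc | hc)
        · exact Subring.subset_closure (Or.inl (hRA c hc))
        · exact Subring.subset_closure (Or.inr (Or.inr ⟨c, hc, rfl⟩))
      exact h1 hc
    · exact Subring.subset_closure (Or.inr (Or.inl hz))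
  have hPP : PP V A T' = P := lo_eq hBV hBB' hB'P
  have hdP : ∀ z ∈ P, ∃ β ∈ A, PMon P x β ∧ β * z ∈ A := by
    intro z hz
    obtain ⟨a, ha, b, hb, hb0, hbV, rfl⟩ := hz
    obtain ⟨β, hβ, hβm, hβa⟩ := den_closure hreg.ne hdT a (hBB' ha)
    obtain ⟨γ, hγ, hγm, hγb⟩ := den_closure hreg.ne hdT b (hBB' hb)
    refine ⟨β * (γ * b), A.mul_mem hβ hγb, hβm.mul hreg.ne (hγm.mul hreg.ne
      (pmon_unit hb0 (hBP hb) (inv_mem_lo hBV (hBP hb) hb0 hbV))), ?_⟩
    have e1 : β * (γ * b) * (a * b⁻¹) = β * a * γ := by field_simp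
    rw [e1]
    exact A.mul_mem hβa hγ
  obtain ⟨β, hβ, hβm, hβT⟩ := STG.exists_den (A := A) (P := P) hreg.ne
    (hTf'.union (Set.finite_range x)) (by
      rintro z (hz | ⟨i, rfl⟩)
      · exact hdT z hz
      · exact hdP _ (hreg.mem i))
  let e' : Fin (Fintype.card κ) ≃ κ := (Fintype.equivFin κ).symm
  refine ⟨T', Fintype.card κ, fun k => x (e' k), ⟨hTf', ?_, β, hβ, ?_,
    fun t ht => hβT t (Or.inl ht), fun i => hβT _ (Or.inr ⟨_, rfl⟩)⟩, ?_⟩
  · rw [hPP]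
    exact regP_equiv hreg e'
  · rw [hPP]
    exact pmon_equiv e' hβm
  · intro g hg
    rw [hPP]
    exact pmon_equiv e' (hZPM g (Or.inl (Or.inr hg)))


end Pool.Agent.U186.RD
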